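import Pool.Agent.Helper95_DC.Filt

set_option autoImplicit false

/-!
A normal subgroup of `p`-power index of a free group contains a term of the weighted dimension
filtration.
-/

namespace Pool.Agent.Helper64_DC

open Pool.Agent.Helper95_DC
open Pool.Agent.Helper95_DC.NCP

section Flag

variable {p : ℕ} {G W : Type} [Group G] [AddCommGroup W] [Module (ZMod p) W]

/-- The ascending series of almost invariant vectors. -/
def flag (ρ : G →* Module.End (ZMod p) W) : ℕ → Submodule (ZMod p) W
  | 0 => ⊥
  | i + 1 =>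
    { carrier := {w | ∀ g, ρ g w - w ∈ flag ρ i}
      add_mem' := by
        intro a b ha hb g
        have : ρ g (a + b) - (a + b) = (ρ g a - a) + (ρ g b - b) := by rw [map_add]; abel
        rw [this]
        exact (flag ρ i).add_mem (ha g) (hb g)
      zero_mem' := by
        intro g
        rw [map_zero, sub_zero]
        exact (flag ρ i).zero_mem
      smul_mem' := by
        intro c a ha g
        rw [map_smul, ← smul_sub]
        exact (flag ρ i).smul_mem c (ha g) }

theorem mem_flag_succ {ρ : G →* Module.End (ZMod p) W} {i : ℕ} {w : W} :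
    w ∈ flag ρ (i + 1) ↔ ∀ g, ρ g w - w ∈ flag ρ i := Iff.rfl

theorem flag_stable (ρ : G →* Module.End (ZMod p) W) (i : ℕ) (w : W) (hw : w ∈ flag ρ i) (h : G) :
    ρ h w ∈ flag ρ i := by
  cases i with
  | zero =>
    have : w = 0 := hw
    rw [this, map_zero]
    exact (flag ρ 0).zero_mem
  | succ i =>
    intro g
    have : ρ g (ρ h w) - ρ h w = (ρ (g * h) w - w) - (ρ h w - w) := by
      rw [map_mul, Module.End.mul_apply]
      abel
    rw [this]
    exact (flag ρ i).sub_mem (hw _) (hw _)

theorem flag_le_succ (ρ : G →* Module.End (ZMod p) W) (i : ℕ) : flag ρ i ≤ flag ρ (i + 1) := by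
  intro w hw g
  exact (flag ρ i).sub_mem (flag_stable ρ i w hw g) hw

theorem flag_mono (ρ : G →* Module.End (ZMod p) W) : Monotone (flag ρ) :=
  monotone_nat_of_le_succ (flag_le_succ ρ)

/-- The action on the quotient by a term of the series. -/
@[instance_reducible] def quotAct (ρ : G →* Module.End (ZMod p) W) (i : ℕ) : MulAction G (W ⧸ flag ρ i) where
  smul g := (flag ρ i).mapQ (flag ρ i) (ρ g) (fun w hw => flag_stable ρ i w hw g)
  one_smul q := by
    induction q using Submodule.Quotient.induction_on with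
    | H w =>
    change (flag ρ i).mapQ (flag ρ i) (ρ 1) _ (Submodule.Quotient.mk w) = _
    rw [Submodule.mapQ_apply, map_one]
    rfl
  mul_smul g h q := by
    induction q using Submodule.Quotient.induction_on with
    | H w =>
    change (flag ρ i).mapQ (flag ρ i) (ρ (g * h)) _ (Submodule.Quotient.mk w) =
      (flag ρ i).mapQ (flag ρ i) (ρ g) _ ((flag ρ i).mapQ (flag ρ i) (ρ h) _
        (Submodule.Quotient.mk w))
    rw [Submodule.mapQ_apply, Submodule.mapQ_apply, Submodule.mapQ_apply, map_mul]
    rfl

theorem flag_lt_succ [Fact p.Prime] [Finite W] (hG : IsPGroup p G)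
    (ρ : G →* Module.End (ZMod p) W) (i : ℕ) (hi : flag ρ i ≠ ⊤) :
    flag ρ i < flag ρ (i + 1) := by
  refine lt_of_le_of_ne (flag_le_succ ρ i) (fun h => ?_)
  let _ := quotAct ρ i
  have hnt : Nontrivial (W ⧸ flag ρ i) := Submodule.Quotient.nontrivial_iff.mpr hi
  have hfin : Finite (W ⧸ flag ρ i) :=
    Finite.of_surjective _ (Submodule.mkQ_surjective (flag ρ i))
  have hcard : p ∣ Nat.card (W ⧸ flag ρ i) := by
    have : Fintype (W ⧸ flag ρ i) := Fintype.ofFinite _
    have h1 := Module.card_eq_pow_finrank (K := ZMod p) (V := W ⧸ flag ρ i)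
    rw [Nat.card_eq_fintype_card, h1, ZMod.card]
    refine dvd_pow_self p (Nat.pos_iff_ne_zero.mp ?_)
    exact Module.finrank_pos
  have h0 : (0 : W ⧸ flag ρ i) ∈ MulAction.fixedPoints G (W ⧸ flag ρ i) := by
    intro g
    change (flag ρ i).mapQ (flag ρ i) (ρ g) _ 0 = 0
    exact map_zero _
  obtain ⟨b, hb, hb0⟩ := hG.exists_fixed_point_of_prime_dvd_card_of_fixed_point _ hcard h0
  induction b using Submodule.Quotient.induction_on with
  | H w =>
  have hw : w ∈ flag ρ (i + 1) := by
    intro g
    have h1 := hb g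
    change (flag ρ i).mapQ (flag ρ i) (ρ g) _ (Submodule.Quotient.mk w) = _ at h1
    rw [Submodule.mapQ_apply] at h1
    exact (Submodule.Quotient.eq _).mp h1
  rw [← h] at hw
  exact hb0 ((Submodule.Quotient.mk_eq_zero _).mpr hw).symm

theorem exists_flag_top [Fact p.Prime] [Finite W] (hG : IsPGroup p G)
    (ρ : G →* Module.End (ZMod p) W) : ∃ n, flag ρ n = ⊤ := by
  by_contra hne
  push Not at hne
  have hs : StrictMono (flag ρ) := strictMono_nat_of_lt_succ (fun i => flag_lt_succ hG ρ i (hne i))
  have : Finite (Submodule (ZMod p) W) := inferInstance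
  exact not_injective_infinite_finite _ hs.injective

end Flag

section Pairs

variable {Y : Type} [DecidableEq Y] {p : ℕ} {A : Type} [Ring A] [Algebra (ZMod p) A]

/-- The span of the pairs of Magnus series of `f` and `ρ f`. -/
def pairSpanA (p : ℕ) (ρ : FreeGroup Y →* A) [Algebra (ZMod p) A] :
    Submodule (ZMod p) (NCP p Y × A) :=
  Submodule.span (ZMod p) (Set.range (fun f => (mg p f, ρ f)))

theorem pairA_mem (ρ : FreeGroup Y →* A) (f : FreeGroup Y) :
    (mg p f, ρ f) ∈ pairSpanA p ρ := Submodule.subset_span ⟨f, rfl⟩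

theorem mul_pairA_mem (ρ : FreeGroup Y →* A) (h : FreeGroup Y)
    {s : NCP p Y × A} (hs : s ∈ pairSpanA p ρ) :
    (s.1 * mg p h, s.2 * ρ h) ∈ pairSpanA p ρ := by
  induction hs using Submodule.span_induction with
  | mem s hs =>
    obtain ⟨f, rfl⟩ := hs
    simp only
    rw [← mg_mul, ← map_mul]
    exact pairA_mem ρ _
  | zero =>
    have : (((0 : NCP p Y × A).1 * mg p h, (0 : NCP p Y × A).2 * ρ h) :
        NCP p Y × A) = 0 := by
      simp only [Prod.fst_zero, Prod.snd_zero, zero_mul]
      rfl
    rw [this]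
    exact (pairSpanA p ρ).zero_mem
  | add s s' _ _ h1 h2 =>
    simp only [Prod.fst_add, Prod.snd_add, add_mul]
    exact (pairSpanA p ρ).add_mem h1 h2
  | smul c s _ h1 =>
    simp only [Prod.smul_fst, Prod.smul_snd, smul_mul_assoc]
    exact (pairSpanA p ρ).smul_mem c h1

/-- The decomposition of elements of `pairSpanA`. -/
def DecompA [Fintype Y] (ρ : FreeGroup Y →* A) (s : NCP p Y × A) : Prop :=
  ∃ g : Y → NCP p Y × A, (∀ y, g y ∈ pairSpanA p ρ) ∧
    s.1 = s.1 [] • (1 : NCP p Y) + ∑ y, X y * (g y).1 ∧
    s.2 = s.1 [] • (1 : A) + ∑ y, (ρ (FreeGroup.of y) - 1) * (g y).2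

theorem decompA_of_mem [Fintype Y] (ρ : FreeGroup Y →* A) {s : NCP p Y × A}
    (hs : s ∈ pairSpanA p ρ) : DecompA ρ s := by
  induction hs using Submodule.span_induction with
  | mem s hs =>
    obtain ⟨f, rfl⟩ := hs
    simp only [DecompA, mg_nil, one_smul]
    induction f using FreeGroup.induction_on with
    | C1 =>
      refine ⟨0, fun y => (pairSpanA p ρ).zero_mem, ?_, ?_⟩ <;> simp
    | of y =>
      refine ⟨Pi.single y 1, fun z => ?_, ?_, ?_⟩
      · by_cases hz : z = y
        · subst hz
          rw [Pi.single_eq_same]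
          have := pairA_mem (p := p) ρ 1
          rw [map_one, mg_one] at this
          exact this
        · rw [Pi.single_eq_of_ne hz]
          exact (pairSpanA p ρ).zero_mem
      · rw [mg_of]
        congr 1
        rw [Finset.sum_eq_single y]
        · simp
        · intro z _ hz
          rw [Pi.single_eq_of_ne hz]
          simp
        · simp
      · rw [Finset.sum_eq_single y]
        · simp
        · intro z _ hz
          rw [Pi.single_eq_of_ne hz]
          simp
        · simp
    | inv_of y _ =>
      refine ⟨Pi.single y (-(mg p (FreeGroup.of y)⁻¹, ρ (FreeGroup.of y)⁻¹)),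
        fun z => ?_, ?_, ?_⟩
      · by_cases hz : z = y
        · subst hz
          rw [Pi.single_eq_same]
          exact (pairSpanA p ρ).neg_mem (pairA_mem (p := p) ρ _)
        · rw [Pi.single_eq_of_ne hz]
          exact (pairSpanA p ρ).zero_mem
      · rw [Finset.sum_eq_single y]
        · rw [Pi.single_eq_same]
          have h1 : (X y : NCP p Y) = mg p (FreeGroup.of y) - 1 := by rw [mg_of]; simp
          simp only [Prod.fst_neg, mul_neg]
          rw [h1, sub_mul, mg_mul_inv]
          simp
        · intro z _ hz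
          rw [Pi.single_eq_of_ne hz]
          simp
        · simp
      · rw [Finset.sum_eq_single y]
        · rw [Pi.single_eq_same]
          simp only [Prod.snd_neg, mul_neg]
          rw [sub_mul, ← map_mul, mul_inv_cancel, map_one]
          simp
        · intro z _ hz
          rw [Pi.single_eq_of_ne hz]
          simp
        · simp
    | mul f h hf hh =>
      obtain ⟨g1, hg1, e1, e1'⟩ := hf
      obtain ⟨g2, hg2, e2, e2'⟩ := hh
      refine ⟨fun y => g2 y + ((g1 y).1 * mg p h, (g1 y).2 * ρ h), fun y => ?_, ?_, ?_⟩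
      · exact (pairSpanA p ρ).add_mem (hg2 y) (mul_pairA_mem ρ h (hg1 y))
      · simp only [Prod.fst_add, mul_add, Finset.sum_add_distrib]
        rw [← add_assoc, ← e2, mg_mul]
        nth_rewrite 1 [e1]
        rw [add_mul, one_mul, Finset.sum_mul]
        simp only [mul_assoc]
      · simp only [Prod.snd_add, mul_add, Finset.sum_add_distrib]
        rw [← add_assoc, ← e2', map_mul]
        nth_rewrite 1 [e1']
        rw [add_mul, one_mul, Finset.sum_mul]
        simp only [mul_assoc]
  | zero =>
    refine ⟨0, fun y => (pairSpanA p ρ).zero_mem, ?_, ?_⟩ <;> simp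
  | add s s' _ _ h1 h2 =>
    obtain ⟨g1, hg1, e1, e1'⟩ := h1
    obtain ⟨g2, hg2, e2, e2'⟩ := h2
    refine ⟨g1 + g2, fun y => (pairSpanA p ρ).add_mem (hg1 y) (hg2 y), ?_, ?_⟩
    · simp only [Prod.fst_add, Pi.add_apply, mul_add, Finset.sum_add_distrib, NCP.add_apply,
        add_smul]
      nth_rewrite 1 [e1, e2]
      abel
    · simp only [Prod.fst_add, Prod.snd_add, Pi.add_apply, mul_add, Finset.sum_add_distrib,
        NCP.add_apply, add_smul]
      nth_rewrite 1 [e1', e2']
      abel
  | smul c s _ h1 =>
    obtain ⟨g1, hg1, e1, e1'⟩ := h1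
    refine ⟨fun y => c • g1 y, fun y => (pairSpanA p ρ).smul_mem c (hg1 y), ?_, ?_⟩
    · simp only [Prod.smul_fst, mul_smul_comm, NCP.smul_apply, ← Finset.smul_sum]
      nth_rewrite 1 [e1]
      rw [smul_add, smul_smul]
    · simp only [Prod.smul_fst, Prod.smul_snd, mul_smul_comm, NCP.smul_apply, ← Finset.smul_sum]
      nth_rewrite 1 [e1']
      rw [smul_add, smul_smul]

end Pairs

section Main

variable {Y : Type} [Fintype Y] [DecidableEq Y] {p : ℕ}

theorem apply_mem_flag {W : Type} [AddCommGroup W] [Module (ZMod p) W]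
    (ρ : FreeGroup Y →* Module.End (ZMod p) W) (n : ℕ) (hn : flag ρ n = ⊤) :
    ∀ (k : ℕ), k ≤ n → ∀ s ∈ pairSpanA p ρ, (∀ w : List Y, w.length < k → s.1 w = 0) →
      ∀ v, s.2 v ∈ flag ρ (n - k) := by
  intro k
  induction k with
  | zero =>
    intro _ s _ _ v
    rw [Nat.sub_zero, hn]
    trivial
  | succ k ih =>
    intro hk s hs h v
    obtain ⟨g, hg, e1, e2⟩ := decompA_of_mem ρ hs
    have h0 : s.1 [] = 0 := h [] (Nat.succ_pos k)
    rw [h0, zero_smul, zero_add] at e1 e2
    rw [e2, LinearMap.sum_apply]
    refine Submodule.sum_mem _ (fun y _ => ?_)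
    have h1 : der y s.1 = (g y).1 := by
      rw [e1, der_sum]
      simp
    have h2 : ∀ w : List Y, w.length < k → (g y).1 w = 0 := by
      intro w hw
      rw [← h1, der_apply]
      exact h (y :: w) (by simpa using hw)
    have h3 := ih (by omega) (g y) (hg y) h2 v
    have h4 : n - k = (n - (k + 1)) + 1 := by omega
    rw [h4, mem_flag_succ] at h3
    have h5 := h3 (FreeGroup.of y)
    rw [Module.End.mul_apply, LinearMap.sub_apply, Module.End.one_apply]
    exact h5

omit [DecidableEq Y] in
theorem sum_map_le (d : Y → ℕ) (w : List Y) : (w.map d).sum ≤ w.length * ∑ y, d y := by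
  induction w with
  | nil => simp
  | cons y w ih =>
    rw [List.map_cons, List.sum_cons, List.length_cons, Nat.succ_mul]
    have : d y ≤ ∑ y, d y := Finset.single_le_sum (fun _ _ => Nat.zero_le _) (Finset.mem_univ y)
    omega

/-- A normal subgroup of `p`-power index contains a term of the filtration. -/
theorem exists_D_le [Fact p.Prime] (d : Y → ℕ) (M : Subgroup (FreeGroup Y)) [M.Normal]
    (hM : ∃ k, M.index = p ^ k) : ∃ m, D p d m ≤ M := by
  obtain ⟨k, hk⟩ := hM
  classical
  let G := FreeGroup Y ⧸ M
  have hcard : Nat.card G = p ^ k := by rw [← hk]; exact (Subgroup.index_eq_card M).symm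
  have hG : IsPGroup p G := IsPGroup.of_card hcard
  have hfin : Finite G := Nat.finite_of_card_ne_zero (by
    rw [hcard]; exact pow_ne_zero _ (Fact.out : p.Prime).ne_zero)
  have : NeZero p := ⟨(Fact.out : p.Prime).ne_zero⟩
  let W := G → ZMod p
  let τ : G →* Module.End (ZMod p) W :=
    { toFun := fun g =>
        { toFun := fun w x => w (x * g)
          map_add' := fun _ _ => rfl
          map_smul' := fun _ _ => rfl }
      map_one' := by
        ext w x
        simp
      map_mul' := fun g h => by
        refine LinearMap.ext (fun w => funext (fun x => ?_))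
        change w (x * (g * h)) = w (x * g * h)
        rw [mul_assoc] }
  let ρ : FreeGroup Y →* Module.End (ZMod p) W := τ.comp (QuotientGroup.mk' M)
  have hflag : ∃ n, flag ρ n = ⊤ := by
    obtain ⟨n, hn⟩ := exists_flag_top hG τ
    refine ⟨n, ?_⟩
    have : ∀ i, flag ρ i = flag τ i := by
      intro i
      induction i with
      | zero => rfl
      | succ i ih =>
        ext w
        rw [mem_flag_succ, mem_flag_succ, ih]
        constructor
        · intro h g
          obtain ⟨f, rfl⟩ := QuotientGroup.mk'_surjective M g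
          exact h f
        · intro h f
          exact h _
    rw [this, hn]
  obtain ⟨n, hn⟩ := hflag
  refine ⟨n * ∑ y, d y + 1, fun f hf => ?_⟩
  rw [mem_D] at hf
  have hs : (mg p f - 1, ρ f - 1) ∈ pairSpanA p ρ := by
    have := (pairSpanA p ρ).sub_mem (pairA_mem (p := p) ρ f) (pairA_mem (p := p) ρ 1)
    simpa using this
  have h1 := apply_mem_flag ρ n hn n le_rfl _ hs (fun w hw => by
    apply hf
    have := sum_map_le d w
    have h2 : w.length * ∑ y, d y ≤ n * ∑ y, d y := Nat.mul_le_mul_right _ hw.le
    omega) (Pi.single 1 1)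
  rw [Nat.sub_self] at h1
  have h2 : (ρ f - 1) (Pi.single 1 1 : W) = 0 := h1
  rw [LinearMap.sub_apply, Module.End.one_apply, sub_eq_zero] at h2
  have h3 := congrFun h2 1
  change (Pi.single 1 1 : W) (1 * QuotientGroup.mk' M f) = (Pi.single 1 1 : W) 1 at h3
  rw [one_mul, Pi.single_eq_same] at h3
  have h4 : QuotientGroup.mk' M f = 1 := by
    by_contra hne
    rw [Pi.single_eq_of_ne hne] at h3
    exact zero_ne_one h3
  exact (QuotientGroup.eq_one_iff f).mp h4

end Main

end Pool.Agent.Helper64_DC
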