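import Pool.Agent.Helper95_DC.Pres
import Pool.Agent.Helper57_DC.GSC
import Pool.Agent.Helper64_DC.Nilp

set_option autoImplicit false

/-!
Module BASIC: elementary consequences of `State`.
-/

namespace Pool.Agent.Helper64_DC

open Pool.Agent.Helper95_DC
open scoped commutatorElement

/-- Elements of `H ⊔ N` for a normal subgroup `N`. -/
theorem mem_sup_iff {F : Type} [Group F] {H N : Subgroup F} [N.Normal] {x : F} :
    x ∈ H ⊔ N ↔ ∃ h ∈ H, ∃ n ∈ N, h * n = x := by
  rw [← SetLike.mem_coe, Subgroup.mul_normal, Set.mem_mul]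
  rfl

theorem comap_map_sup {E F : Type} [Group E] [Group F] (φ : E →* F) (H : Subgroup E)
    (N : Subgroup F) [N.Normal] : (H.map φ ⊔ N).comap φ = H ⊔ N.comap φ := by
  apply le_antisymm
  · intro f hf
    obtain ⟨h, hh, n, hn, e⟩ := mem_sup_iff.mp (Subgroup.mem_comap.mp hf)
    obtain ⟨g, hg, rfl⟩ := hh
    have h1 : g⁻¹ * f ∈ N.comap φ := by
      rw [Subgroup.mem_comap, map_mul, map_inv, ← e]
      simpa using hn
    have h2 : f = g * (g⁻¹ * f) := by group
    rw [h2]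
    exact Subgroup.mul_mem_sup hg h1
  · refine sup_le ?_ (Subgroup.comap_mono le_sup_right)
    refine le_trans (Subgroup.le_comap_map φ H) (Subgroup.comap_mono le_sup_left)

theorem commutator_congr {F : Type} [Group F] {N : Subgroup F} [hN : N.Normal] {h n k m : F}
    (hn : n ∈ N) (hm : m ∈ N) : ∃ u ∈ N, ⁅h, k⁆ * u = ⁅h * n, k * m⁆ := by
  refine ⟨⁅h, k⁆⁻¹ * ⁅h * n, k * m⁆, ?_, by group⟩
  rw [← QuotientGroup.eq]
  have h1 : ((h * n : F) : F ⧸ N) = (h : F ⧸ N) := by
    rw [eq_comm, QuotientGroup.eq]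
    simpa using hn
  have h2 : ((k * m : F) : F ⧸ N) = (k : F ⧸ N) := by
    rw [eq_comm, QuotientGroup.eq]
    simpa using hm
  change (QuotientGroup.mk' N) ⁅h, k⁆ = (QuotientGroup.mk' N) ⁅h * n, k * m⁆
  rw [map_commutatorElement, map_commutatorElement]
  change ⁅(h : F ⧸ N), (k : F ⧸ N)⁆ = ⁅((h * n : F) : F ⧸ N), ((k * m : F) : F ⧸ N)⁆
  rw [h1, h2]

theorem pow_congr {F : Type} [Group F] {N : Subgroup F} [hN : N.Normal] {h n : F}
    (hn : n ∈ N) (p : ℕ) : ∃ u ∈ N, h ^ p * u = (h * n) ^ p := by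
  refine ⟨(h ^ p)⁻¹ * (h * n) ^ p, ?_, by group⟩
  rw [← QuotientGroup.eq]
  have h1 : ((h * n : F) : F ⧸ N) = (h : F ⧸ N) := by
    rw [eq_comm, QuotientGroup.eq]
    simpa using hn
  rw [QuotientGroup.mk_pow, QuotientGroup.mk_pow, h1]

theorem basic : BasicStatement := by
  intro p _ t ht0 ht1 F _ N V Fil b hS
  obtain ⟨Y, _, _, d, φ, ι, R, e, hd, hFil, hN, hR, hsum, hb⟩ := hS.pres
  have hNn : N.Normal := hS.N_normal
  have hFn : ∀ m, (Fil m).Normal := hS.Fil_normal
  have hp : p.Prime := Fact.out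
  have hF : ∀ m, Fil m = (D p d m).map φ ⊔ N := fun m => by
    rw [hFil, inf_eq_right.mpr (hS.Fil_le m)]
  have hFA : FilAx p N Fil := by
    refine ⟨?_, ?_, ?_, ?_⟩
    · intro a b hab
      rw [hF, hF]
      exact sup_le_sup_right (Subgroup.map_mono (D_antitone d hab)) _
    · intro m
      rw [hF]
      exact le_sup_right
    · intro a b x y hx hy
      rw [hF] at hx hy ⊢
      obtain ⟨_, ⟨f, hf, rfl⟩, n, hn, rfl⟩ := mem_sup_iff.mp hx
      obtain ⟨_, ⟨g, hg, rfl⟩, m, hm, rfl⟩ := mem_sup_iff.mp hy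
      obtain ⟨u, hu, e⟩ := commutator_congr (h := φ f) (k := φ g) hn hm
      rw [← e, ← map_commutatorElement]
      exact Subgroup.mul_mem_sup ⟨_, commutator_mem_D hf hg, rfl⟩ hu
    · intro a x hx
      rw [hF] at hx ⊢
      obtain ⟨_, ⟨f, hf, rfl⟩, n, hn, rfl⟩ := mem_sup_iff.mp hx
      obtain ⟨u, hu, e⟩ := pow_congr (h := φ f) hn p
      rw [← e, ← map_pow]
      exact Subgroup.mul_mem_sup ⟨_, pow_mem_D hf, rfl⟩ hu
  have h0 : Fil 0 = V := le_antisymm (hS.Fil_le 0) hS.le_Fil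
  have h1 : Fil 1 = V := by
    rw [← h0, hF 0, hF 1, D_zero, D_one hd]
  have hNV : N ≤ V := by
    rw [← h0]
    exact hFA.N_le 0
  have hcomap : ∀ m, (Fil m).comap φ = Subgroup.normalClosure (Set.range R) ⊔ D p d m := by
    intro m
    rw [hF, comap_map_sup, hN, sup_comm]
  have hrange : φ.range ⊔ N = V := by
    have := hF 0
    rw [h0, D_zero, ← MonoidHom.range_eq_map] at this
    exact this.symm
  have hrel : ∀ m, (Fil m).relIndex V =
      (Subgroup.normalClosure (Set.range R) ⊔ D p d m).index := by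
    intro m
    have := hFn m
    rw [← hcomap, Subgroup.index_comap]
    have h2 : V = φ.range ⊔ Fil m := by
      apply le_antisymm
      · rw [← hrange]
        exact sup_le_sup_left (hFA.N_le m) _
      · refine sup_le ?_ (hS.Fil_le m)
        rw [← hrange]
        exact le_sup_left
    conv_lhs => rw [h2]
    exact Subgroup.relIndex_sup_right _ _
  have hidx : ∀ m, (Fil m).index =
      (Subgroup.normalClosure (Set.range R) ⊔ D p d m).index * V.index := by
    intro m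
    rw [← hrel, Subgroup.relIndex_mul_index (hS.Fil_le m)]
  obtain ⟨kV, hkV⟩ := hS.V_index
  refine ⟨hFA, h0, h1, ?_, ?_, ?_⟩
  · intro m
    obtain ⟨k, hk⟩ := D_index (p := p) hd m
    have h3 : (Subgroup.normalClosure (Set.range R) ⊔ D p d m).index ∣ p ^ k := by
      rw [← hk]
      exact Subgroup.index_dvd_of_le le_sup_right
    obtain ⟨j, _, hj⟩ := (Nat.dvd_prime_pow hp).mp h3
    exact ⟨j + kV, by rw [hidx, hj, hkV, pow_add]⟩
  · intro n
    have hb' : 1 + ∑' i, t ^ e i ≤ ∑ y, t ^ d y := by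
      have := hS.pos
      linarith
    obtain ⟨m, hm⟩ := Helper57_DC.gsc p Y d hd ι R e hR t ht0 ht1 hsum hb' n
    refine ⟨m, hm.trans ?_⟩
    rw [hidx]
    exact Nat.le_mul_of_pos_right _ (by rw [hkV]; exact pow_pos hp.pos _)
  · intro M hMn hMi hNM
    obtain ⟨k, hk⟩ := hMi
    have : (M.comap φ).Normal := hMn.comap φ
    have h4 : (M.comap φ).index ∣ p ^ k := by
      rw [Subgroup.index_comap, ← hk]
      exact Subgroup.relIndex_dvd_index_of_normal _ _
    obtain ⟨j, _, hj⟩ := (Nat.dvd_prime_pow hp).mp h4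
    obtain ⟨m, hm⟩ := exists_D_le (p := p) d (M.comap φ) ⟨j, hj⟩
    refine ⟨m, ?_⟩
    rw [hF]
    exact sup_le (Subgroup.map_le_iff_le_comap.mpr hm) hNM

end Pool.Agent.Helper64_DC
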