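import Pool.Agent.Helper64_DC.Basic
import Pool.Agent.Helper95_DC.Subst

set_option autoImplicit false

/-!
Module SCALE: adding a constant to the degrees of all generators.
-/

namespace Pool.Agent.Helper64_DC

open Pool.Agent.Helper95_DC
open Pool.Agent.Helper95_DC.NCP

theorem D_le_shift {Y : Type} [DecidableEq Y] {p : ℕ} (d : Y → ℕ) (k m : ℕ) :
    D p d m ≤ D p (fun y => d y + k) (m + k) := by
  intro f hf
  rw [mem_D] at hf ⊢
  intro w hw
  cases w with
  | nil => rw [sub_apply, mg_nil, one_nil, sub_self]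
  | cons y w =>
    apply hf
    have h1 : ∀ w : List Y, (w.map d).sum ≤ (w.map (fun y => d y + k)).sum := by
      intro w
      induction w with
      | nil => simp
      | cons y w ih =>
        simp only [List.map_cons, List.sum_cons]
        omega
    have h2 := h1 w
    simp only [List.map_cons, List.sum_cons] at hw ⊢
    omega

theorem of_mem_D {Y : Type} [DecidableEq Y] {p : ℕ} (d : Y → ℕ) (y : Y) :
    FreeGroup.of y ∈ D p d (d y) := by
  rw [mem_D, mg_of]
  have : (1 + X y : NCP p Y) - 1 = X y := by abel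
  rw [this]
  exact ge_X d y

theorem scale : ScaleStatement := by
  intro p _ t ht0 ht1 F _ N V Fil b k hS hpos
  obtain ⟨Y, _, _, d, φ, ι, R, e, hd, hFil, hN, hR, hsum, hb⟩ := hS.pres
  have hNn : N.Normal := hS.N_normal
  have hFn : ∀ m, (Fil m).Normal := hS.Fil_normal
  have hF : ∀ m, Fil m = (D p d m).map φ ⊔ N := fun m => by
    rw [hFil, inf_eq_right.mpr (hS.Fil_le m)]
  have h0 : Fil 0 = V := le_antisymm (hS.Fil_le 0) hS.le_Fil
  have hV : φ.range ⊔ N = V := by
    have := hF 0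
    rw [h0, D_zero, ← MonoidHom.range_eq_map] at this
    exact this.symm
  let d' : Y → ℕ := fun y => d y + k
  have hd' : ∀ y, 0 < d' y := fun y => Nat.add_pos_left (hd y) k
  let Fil' : ℕ → Subgroup F := fun m => (D p d' m).map φ ⊔ N
  have hle : ∀ m, Fil' m ≤ V := by
    intro m
    rw [← hV]
    exact sup_le_sup_right (by
      rintro _ ⟨f, _, rfl⟩
      exact ⟨f, rfl⟩) _
  have hnormal : ∀ m, (Fil' m).Normal := by
    intro m
    refine ⟨fun x hx g => ?_⟩
    have key : ∀ y : Y, ∃ u ∈ D p d (d y), ∃ n ∈ N, φ u * n = g * φ (FreeGroup.of y) * g⁻¹ := by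
      intro y
      have h1 : φ (FreeGroup.of y) ∈ Fil (d y) := by
        rw [hF]
        exact Subgroup.mem_sup_left ⟨_, of_mem_D d y, rfl⟩
      have h2 := (hFn (d y)).conj_mem _ h1 g
      rw [hF] at h2
      obtain ⟨_, ⟨u, hu, rfl⟩, n, hn, e⟩ := mem_sup_iff.mp h2
      exact ⟨u, hu, n, hn, e⟩
    choose θ hθ ν hν hθν using key
    let Θ : FreeGroup Y →* FreeGroup Y := FreeGroup.lift θ
    have hΘ : ∀ f, QuotientGroup.mk' N (φ (Θ f)) = QuotientGroup.mk' N (g * φ f * g⁻¹) := by
      intro f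
      have h3 : (QuotientGroup.mk' N).comp (φ.comp Θ) =
          (QuotientGroup.mk' N).comp ((MulAut.conj g).toMonoidHom.comp φ) := by
        ext y
        change QuotientGroup.mk' N (φ (Θ (FreeGroup.of y))) =
          QuotientGroup.mk' N (g * φ (FreeGroup.of y) * g⁻¹)
        rw [← hθν y]
        change QuotientGroup.mk' N (φ (FreeGroup.lift θ (FreeGroup.of y))) = _
        rw [FreeGroup.lift_apply_of, map_mul]
        have h4 : QuotientGroup.mk' N (ν y) = 1 := (QuotientGroup.eq_one_iff _).mpr (hν y)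
        rw [h4, mul_one]
      exact DFunLike.congr_fun h3 f
    obtain ⟨_, ⟨f, hf, rfl⟩, n, hn, rfl⟩ := mem_sup_iff.mp hx
    have h5 : Θ f ∈ D p d' m := by
      refine map_mem_D hd' Θ (fun y => ?_) hf
      change FreeGroup.lift θ (FreeGroup.of y) ∈ _
      rw [FreeGroup.lift_apply_of]
      exact D_le_shift d k (d y) (hθ y)
    have h6 : (φ (Θ f))⁻¹ * (g * φ f * g⁻¹) ∈ N := QuotientGroup.eq.mp (hΘ f)
    have h7 : g * (φ f * n) * g⁻¹ =
        φ (Θ f) * (((φ (Θ f))⁻¹ * (g * φ f * g⁻¹)) * (g * n * g⁻¹)) := by group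
    rw [h7]
    exact Subgroup.mul_mem_sup ⟨_, h5, rfl⟩ (N.mul_mem h6 (hNn.conj_mem n hn g))
  refine ⟨Fil', ⟨hNn, hS.V_normal, hS.V_index, hnormal, hle, ?_, ?_, hpos⟩, ?_⟩
  · change V ≤ (D p d' 0).map φ ⊔ N
    rw [D_zero, ← MonoidHom.range_eq_map, hV]
  · refine ⟨Y, inferInstance, inferInstance, d', φ, ι, R, fun i => e i + k, hd', ?_, hN, ?_, ?_, ?_⟩
    · intro m
      rw [inf_eq_right.mpr (hle m)]
    · intro i
      exact D_le_shift d k _ (hR i)
    · simp only [pow_add]
      exact hsum.mul_right _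
    · simp only [pow_add, d']
      rw [tsum_mul_right, ← Finset.sum_mul]
      have : 0 < t ^ k := pow_pos ht0 k
      nlinarith
  · intro m
    rw [hF]
    exact sup_le_sup_right (Subgroup.map_mono (D_le_shift d k m)) _

end Pool.Agent.Helper64_DC
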